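import Pool.Agent.R189.BE.Limit

/-!
# Bose-Einstein condensation for hard-core bosons on expanding graphs

`N` hard-core bosons on a finite set `V` of `n` sites, with the Hamiltonian

`H = - ∑_{x,y} T x y b_x† b_y + (1/2) ∑_{x ≠ y} U x y n_x n_y`.

The hopping `T` is symmetric, with zero diagonal and row sums `d`, and all its other eigenvalues are
at most `l` (for instance the adjacency matrix of a `d`-regular graph with second eigenvalue `l`); the
pair interaction `U ≥ 0` is arbitrary.  In the thermodynamic limit `N, n → ∞`, `N / n → ρ`, with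
`l ≤ α d`, row sums of `U` at most `υ d` and temperature at most `t d`, the density of the
condensate of the equilibrium states is at least
`(ρ (1 - ρ) - α min ρ (1 - ρ) - υ ρ² / 2 - t h(ρ)) / (1 - α)`, where `h` is the entropy function, and
at most `ρ (1 - ρ)`.
-/

set_option autoImplicit false

namespace Pool.Agent.R189.Old.ExpanderBEC

open Pool.Agent.R189.BE Filter Topology

/-- **Bose-Einstein condensation in the thermodynamic limit for repulsive hard-core bosons on
expanding graphs, at zero and at positive temperature.** -/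
theorem result (V : ℕ → Type) [∀ k, Fintype (V k)] [∀ k, DecidableEq (V k)]
    (T U : ∀ k, Matrix (V k) (V k) ℝ) (d l τ : ℕ → ℝ) (N : ℕ → ℕ)
    (D : ∀ k, Matrix (Conf (V k) (N k)) (Conf (V k) (N k)) ℝ) (ρ α υ t : ℝ)
    (hρ : 0 < ρ) (hρ1 : ρ < 1) (hα : α < 1)
    (hn : Tendsto (fun k => Fintype.card (V k)) atTop atTop)
    (hN : Tendsto (fun k => (N k : ℝ) / Fintype.card (V k)) atTop (𝓝 ρ))
    (hd : ∀ k, 0 < d k) (hT : ∀ k, Gapped (T k) (d k) (l k)) (hU : ∀ k x y, 0 ≤ U k x y)
    (hl : ∀ ε > 0, ∀ᶠ k in atTop, l k ≤ (α + ε) * d k)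
    (hu : ∀ ε > 0, ∀ᶠ k in atTop, ∀ x, ∑ y, U k x y ≤ (υ + ε) * d k)
    (hτ : ∀ ε > 0, ∀ᶠ k in atTop, τ k ≤ (t + ε) * d k)
    (hD : ∀ k, IsEq (τ k) (ham (T k) (pairW (U k)) (N k)) (D k)) :
    ∀ ε > 0, ∀ᶠ k in atTop,
      (ρ * (1 - ρ) - α * min ρ (1 - ρ) - υ * ρ ^ 2 / 2 - t * Real.binEntropy ρ) / (1 - α) - ε ≤
          condensate (D k) / Fintype.card (V k) ∧
        condensate (D k) / Fintype.card (V k) ≤ ρ * (1 - ρ) + ε :=
  limit_thm V T U d l τ N D ρ α υ t hρ hρ1 hα hn hN hd hT hU hl hu hτ hD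

end Pool.Agent.R189.Old.ExpanderBEC
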