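import Pool.Agent.R189.BE.Final

/-!
# The condensate density and the critical temperature of lattice bosons with quasirandom hopping

`N` hard-core bosons on a finite set `V` of `n` sites, with the Hamiltonian

`H = - ∑_{x,y} T x y b_x† b_y + (c / 2) ∑_{x ≠ y} T x y n_x n_y + R`,

where the hopping `T` is quasirandom: in operator norm its distance to the matrix with all entries
`d / n` is `o(d)` (for instance adjacency matrices of graphs with almost constant degree `d` all of
whose other eigenvalues are `o(d)`).  The nearest neighbour interaction `c T` may be repulsive or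
attractive and of any fixed strength, and `R` is any function of the configuration with oscillation
`o(d n)`.  In the thermodynamic limit `N, n → ∞`, `N / n → ρ`, at the temperature `t d`, the density of
the particles in the constant mode in the canonical Gibbs state converges to
`max 0 ((m² - (1 - 2 ρ)²) / 4)`, where `m` is the largest solution of `m = tanh (m / (2 t))`.  It is
positive if and only if `t` is smaller than the critical value `(1 - 2 ρ) / log ((1 - ρ) / ρ)`
(`1 / 2` if `ρ = 1 / 2`).
-/

set_option autoImplicit false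

namespace Pool.Agent.R189.Old.QuasirandomPhaseDiagram

open Pool.Agent.R189.BE Filter Topology

/-- **The phase diagram of lattice bosons with quasirandom hopping and nearest neighbour
interaction.** -/
theorem result (t : ℝ) (ht : 0 < t) :
    ∃ m : ℝ, IsGreatest {m : ℝ | 0 ≤ m ∧ m = Real.tanh (m / (2 * t))} m ∧
      ∀ ρ : ℝ, 0 < ρ → ρ < 1 →
        (0 < max 0 ((m ^ 2 - (1 - 2 * ρ) ^ 2) / 4) ↔
          (ρ = 1 / 2 ∧ t < 1 / 2) ∨ (ρ ≠ 1 / 2 ∧ t * |Real.log ((1 - ρ) / ρ)| < |1 - 2 * ρ|)) ∧
        ∀ (V : ℕ → Type) [∀ k, Fintype (V k)] [∀ k, DecidableEq (V k)]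
          (T : ∀ k, Matrix (V k) (V k) ℝ) (R : ∀ k, Finset (V k) → ℝ) (d c τ : ℕ → ℝ)
          (N : ℕ → ℕ) (C : ℝ),
          Tendsto (fun k => Fintype.card (V k)) atTop atTop →
          Tendsto (fun k => (N k : ℝ) / Fintype.card (V k)) atTop (𝓝 ρ) →
          (∀ k, 0 < d k) →
          (∀ ε > 0, ∀ᶠ k in atTop, Near (T k) (d k) (ε * d k)) →
          (∀ k, |c k| ≤ C) →
          (∀ ε > 0, ∀ᶠ k in atTop, ∃ w : ℝ, ∀ S : Finset (V k), S.card = N k →
            |R k S - w| ≤ ε * (d k * Fintype.card (V k))) →
          Tendsto (fun k => τ k / d k) atTop (𝓝 t) →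
          Tendsto (fun k => condensate (gibbs (τ k)⁻¹
              (ham (T k) (fun S => pairW (c k • T k) S + R k S) (N k))) / Fintype.card (V k))
            atTop (𝓝 (max 0 ((m ^ 2 - (1 - 2 * ρ) ^ 2) / 4))) := by
  obtain ⟨m, hm⟩ := mf_exists t
  refine ⟨m, hm, fun ρ hρ hρ1 => ⟨density_pos_iff ht hm hρ hρ1, ?_⟩⟩
  intro V _ _ T R d c τ N C hn hN hd hT hc hR hτ
  have hn' : Tendsto (fun k => (Fintype.card (V k) : ℝ)) atTop atTop :=
    tendsto_natCast_atTop_atTop.comp hn
  have hNn : ∀ᶠ k in atTop, N k ≤ Fintype.card (V k) := by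
    filter_upwards [hN.eventually (gt_mem_nhds hρ1), hn'.eventually_gt_atTop 0] with k hk hk0
    rw [div_lt_one hk0] at hk
    exact_mod_cast hk.le
  exact phase_thm V T (fun k S => pairW (c k • T k) S + R k S) d τ N ht hm hρ hρ1 hn' hN hd hT
    (fun ε hε => near_const V T R d c N hn' hNn hd hT hc hR hε) hτ

end Pool.Agent.R189.Old.QuasirandomPhaseDiagram
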